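import Pool.Agent.V8H27.GC.Defs

/-!
# Bistellar flips as stellar subdivisions
-/

set_option autoImplicit false

namespace Pool.Agent.V8H27.GC

variable {V : Type} [LinearOrder V]

/-- the bistellar flip which replaces the faces containing `A` by the faces of `A ∪ B` containing `B` -/
def flipped (K : Set (Finset V)) (A B : Finset V) : Set (Finset V) :=
  {T | (T ∈ K ∧ ¬ A ⊆ T) ∨ (B ⊆ T ∧ T ⊆ A ∪ B ∧ ¬ A ⊆ T)}

section

variable {K : Set (Finset V)} (hK : ∀ T ∈ K, ∀ S, S ⊆ T → S ∈ K) {A B : Finset V} {m : V}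
    (hAB : Disjoint A B) (hA : A.Nonempty) (hB : B.Nonempty) (h0 : A ∈ K) (hm : ∀ T ∈ K, m ∉ T) (hmB : m ∉ B)
    (h1 : ∀ T ∈ K, A ⊆ T → T ⊆ A ∪ B) (h2 : ∀ b ∈ B, (A ∪ B).erase b ∈ K) (h3 : B ∉ K)

include hK h2 in
theorem mem_of_not_subset {S : Finset V} (hS : S ⊆ A ∪ B) (hBS : ¬ B ⊆ S) : S ∈ K := by
  obtain ⟨b, hb, hbS⟩ := Finset.not_subset.mp hBS
  refine hK _ (h2 b hb) S fun x hx => ?_
  rw [Finset.mem_erase]
  exact ⟨fun h => hbS (h ▸ hx), hS hx⟩

include hK hAB h0 hm hmB h1 h2 h3 in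
/-- a bistellar flip is a stellar subdivision followed by the inverse of another one -/
theorem flip_star : star A m K = star B m (flipped K A B) := by
  have hmA : m ∉ A := hm A h0
  ext T
  constructor
  · rintro ⟨h, hAT⟩
    rcases h with h | ⟨hmT, h⟩
    · exact ⟨Or.inl (Or.inl ⟨h, hAT⟩), fun hBT => h3 (hK T h B hBT)⟩
    · have hU : T.erase m ⊆ A ∪ B := Finset.subset_union_left.trans (h1 _ h Finset.subset_union_right)
      have hAU : ¬ A ⊆ T.erase m := fun h' => hAT (h'.trans (Finset.erase_subset _ _))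
      refine ⟨Or.inr ⟨hmT, Or.inr ⟨Finset.subset_union_right,
        Finset.union_subset hU Finset.subset_union_right, fun h' => hAU fun x hx => ?_⟩⟩, fun hBT => ?_⟩
      · rcases Finset.mem_union.mp (h' hx) with h4 | h4
        · exact h4
        · exact absurd h4 (Finset.disjoint_left.mp hAB hx)
      · refine h3 (hK _ h B fun x hx => Finset.mem_union_left _ (Finset.mem_erase.mpr ⟨?_, hBT hx⟩))
        rintro rfl
        exact hmB hx
  · rintro ⟨h, hBT⟩
    rcases h with h | ⟨hmT, h⟩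
    · rcases h with ⟨h, hAT⟩ | ⟨h, -, -⟩
      · exact ⟨Or.inl h, hAT⟩
      · exact absurd h hBT
    · rcases h with ⟨h, -⟩ | ⟨-, h4, h5⟩
      · exact absurd (hK _ h B Finset.subset_union_right) h3
      · have hBU : ¬ B ⊆ T.erase m := fun h' => hBT (h'.trans (Finset.erase_subset _ _))
        refine ⟨Or.inr ⟨hmT, mem_of_not_subset hK h2 (Finset.union_subset
          (Finset.subset_union_left.trans h4) Finset.subset_union_left) fun h' => hBU fun x hx => ?_⟩,
          fun hAT => h5 fun x hx => Finset.mem_union_left _ (Finset.mem_erase.mpr ⟨?_, hAT hx⟩)⟩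
        · rcases Finset.mem_union.mp (h' hx) with h6 | h6
          · exact h6
          · exact absurd hx (Finset.disjoint_left.mp hAB h6)
        · rintro rfl
          exact hmA hx

include hK h2 in
theorem flipped_dn : ∀ T ∈ flipped K A B, ∀ S, S ⊆ T → S ∈ flipped K A B := by
  rintro T (⟨h, hAT⟩ | ⟨-, h4, h5⟩) S hST
  · exact Or.inl ⟨hK T h S hST, fun h' => hAT (h'.trans hST)⟩
  · by_cases hBS : B ⊆ S
    · exact Or.inr ⟨hBS, hST.trans h4, fun h' => h5 (h'.trans hST)⟩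
    · exact Or.inl ⟨mem_of_not_subset hK h2 (hST.trans h4) hBS, fun h' => h5 (h'.trans hST)⟩

include hAB hA in
theorem mem_flipped : B ∈ flipped K A B := by
  refine Or.inr ⟨subset_rfl, Finset.subset_union_right, fun h => ?_⟩
  obtain ⟨a, ha⟩ := hA
  exact Finset.disjoint_left.mp hAB ha (h ha)

include hm h0 hmB in
theorem notMem_flipped : ∀ T ∈ flipped K A B, m ∉ T := by
  rintro T (⟨h, -⟩ | ⟨-, h4, -⟩) hmT
  · exact hm T h hmT
  · rcases Finset.mem_union.mp (h4 hmT) with h | h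
    · exact hm A h0 h
    · exact hmB h

include hK hAB hA hB h0 hm hmB h1 h2 h3 in
/-- PL spheres are closed under bistellar flips if there is a spare label -/
theorem PLC.flip_aux {n : ℕ} (h : PLC n K) : PLC n (flipped K A B) := by
  refine PLC.unstar _ B m (flipped_dn hK h2) (mem_flipped hAB hA) hB (notMem_flipped h0 hm hmB) ?_
  rw [← flip_star hK hAB h0 hm hmB h1 h2 h3]
  exact PLC.star K A m h h0 hA hm

end

section

/-- stellar subdivisions of simplicial complexes are simplicial complexes -/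
theorem star_down {K : Set (Finset V)} (hK : ∀ T ∈ K, ∀ S, S ⊆ T → S ∈ K) (A : Finset V) (m : V) :
    ∀ T ∈ star A m K, ∀ S, S ⊆ T → S ∈ star A m K := by
  rintro T ⟨h, hAT⟩ S hST
  refine ⟨?_, fun h' => hAT (h'.trans hST)⟩
  rcases h with h | ⟨_, h⟩
  · exact Or.inl (hK T h S hST)
  · by_cases hmS : m ∈ S
    · exact Or.inr ⟨hmS, hK _ h _ (Finset.union_subset_union (Finset.erase_subset_erase m hST) subset_rfl)⟩
    · refine Or.inl (hK _ h _ fun x hx => Finset.mem_union_left _ (Finset.mem_erase.mpr ⟨?_, hST hx⟩))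
      rintro rfl
      exact hmS hx

theorem PLC.down {n : ℕ} {K : Set (Finset V)} (h : PLC n K) : ∀ T ∈ K, ∀ S, S ⊆ T → S ∈ K := by
  induction h with
  | base W hW => exact fun T hT S hST => lt_of_le_of_lt hST hT
  | star K A m _ _ _ _ ih => exact star_down ih A m
  | unstar K A m hK _ _ _ _ _ => exact hK

/-- PL spheres are closed under bistellar flips if there is a spare label -/
theorem PLC.flip {n : ℕ} {K : Set (Finset V)} {A B : Finset V} {m : V} (h : PLC n K) (hAB : Disjoint A B)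
    (hA : A.Nonempty) (hB : B.Nonempty) (hm : ∀ T ∈ K, m ∉ T) (hmB : m ∉ B)
    (h1 : ∀ T ∈ K, A ⊆ T → T ⊆ A ∪ B) (h2 : ∀ b ∈ B, (A ∪ B).erase b ∈ K) (h3 : B ∉ K) :
    PLC n {T | (T ∈ K ∧ ¬ A ⊆ T) ∨ (B ⊆ T ∧ T ⊆ A ∪ B ∧ ¬ A ⊆ T)} := by
  have h0 : A ∈ K := by
    obtain ⟨b, hb⟩ := hB
    refine h.down _ (h2 b hb) A fun x hx => ?_
    rw [Finset.mem_erase]
    exact ⟨fun e => Finset.disjoint_left.mp hAB hx (e ▸ hb), Finset.mem_union_left _ hx⟩
  exact h.flip_aux h.down hAB hA hB h0 hm hmB h1 h2 h3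

/-- PL spheres which do not use the label `m` -/
def PLS (n : ℕ) (m : V) (K : Set (Finset V)) : Prop := PLC n K ∧ ∀ T ∈ K, m ∉ T

theorem PLS.base {n : ℕ} {m : V} {W : Finset V} (hW : W.card = n + 1) (hm : m ∉ W) :
    PLS n m {T | T ⊂ W} :=
  ⟨PLC.base W hW, fun _ hT hmT => hm (hT.1 hmT)⟩

theorem PLS.flip {n : ℕ} {K : Set (Finset V)} {A B : Finset V} {m : V} (h : PLS n m K) (hAB : Disjoint A B)
    (hA : A.Nonempty) (hB : B.Nonempty) (hmB : m ∉ B)
    (h1 : ∀ T ∈ K, A ⊆ T → T ⊆ A ∪ B) (h2 : ∀ b ∈ B, (A ∪ B).erase b ∈ K) (h3 : B ∉ K) :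
    PLS n m {T | (T ∈ K ∧ ¬ A ⊆ T) ∨ (B ⊆ T ∧ T ⊆ A ∪ B ∧ ¬ A ⊆ T)} := by
  have h0 : A ∈ K := by
    obtain ⟨b, hb⟩ := hB
    refine h.1.down _ (h2 b hb) A fun x hx => ?_
    rw [Finset.mem_erase]
    exact ⟨fun e => Finset.disjoint_left.mp hAB hx (e ▸ hb), Finset.mem_union_left _ hx⟩
  exact ⟨h.1.flip hAB hA hB h.2 hmB h1 h2 h3, notMem_flipped h0 h.2 hmB⟩

end

end Pool.Agent.V8H27.GC
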